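import Pool.Agent.H948.SF.Base

/-!
# [EXT]: bounded means imply extinction
-/

set_option autoImplicit false

namespace Pool.Agent.H106.SF

open Pool.Agent.H948.SF
open MeasureTheory ProbabilityTheory Set Filter
open scoped ENNReal NNReal Nat Topology

namespace EXT

/-- independence of two events which depend on disjoint sets of cells -/
theorem mu_inter (h2 : S_BLOCK) {V : Type} (lam : ℝ) (E F : Set (Env (Lab V)))
    (I I' : Set (Lab V × ℤ)) (hE : MeasurableSet E) (hF : MeasurableSet F)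
    (hEI : ∀ ω ω' : Env (Lab V), (∀ j ∈ I, ω j = ω' j) → ω ∈ E → ω' ∈ E)
    (hFI : ∀ ω ω' : Env (Lab V), (∀ j ∈ I', ω j = ω' j) → ω ∈ F → ω' ∈ F)
    (hd : Disjoint I I') : mu V lam (E ∩ F) = mu V lam E * mu V lam F := by
  have h := h2 (Lab V × ℤ) (fun j => contactRate lam j.1) Bool (fun _ => Prop)
    (fun b ω => if b = true then ω ∈ E else ω ∈ F) (fun b => if b = true then I else I')
    (by
      intro b
      cases b
      · exact measurableSet_setOfPred.mp hF
      · exact measurableSet_setOfPred.mp hE)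
    (by
      intro b ω ω' hb
      cases b
      · exact propext ⟨hFI ω ω' hb, hFI ω' ω fun j hj => (hb j hj).symm⟩
      · exact propext ⟨hEI ω ω' hb, hEI ω' ω fun j hj => (hb j hj).symm⟩)
    (by
      intro b b' hbb
      cases b <;> cases b'
      · exact absurd rfl hbb
      · exact hd.symm
      · exact hd
      · exact absurd rfl hbb)
  have h' := h.indepFun (i := true) (j := false) (by decide)
  have h'' := h'.measure_inter_preimage_eq_mul {True} {True} (measurableSet_singleton _)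
    (measurableSet_singleton _)
  have e1 : (fun ω : Env (Lab V) => if (true = true) then ω ∈ E else ω ∈ F) ⁻¹' {True} = E := by
    ext ω
    simp
  have e2 : (fun ω : Env (Lab V) => if (false = true) then ω ∈ E else ω ∈ F) ⁻¹' {True} = F := by
    ext ω
    simp
  rw [e1, e2] at h''
  exact h''

variable {e : ℕ} {lam : ℝ}

theorem meas_con (h3 : S_MEAS) (G : SimpleGraph (W e)) (x y : W e) (k l : ℤ) :
    MeasurableSet {ω : Env (Lab (W e)) | Con G ω x k y l} := h3 (W e) G x y k l

/-- the cells used to kill the infection in `v` during the window `k` -/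
def Sk (v : W e) (k : ℤ) : Finset (Lab (W e) × ℤ) :=
  insert (Sum.inr v, k) (insert (Sum.inl s(v, v.tail), k)
    (Finset.univ.image fun a : Fin (e + 2) => ((Sum.inl s(v, a :: v), k) : Lab (W e) × ℤ)))

theorem Sk_card (v : W e) (k : ℤ) : (Sk v k).card ≤ e + 4 := by
  unfold Sk
  refine (Finset.card_insert_le _ _).trans ?_
  refine (Nat.succ_le_succ (Finset.card_insert_le _ _)).trans ?_
  have := (Finset.card_image_le (s := (Finset.univ : Finset (Fin (e + 2))))
    (f := fun a : Fin (e + 2) => ((Sum.inl s(v, a :: v), k) : Lab (W e) × ℤ)))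
  rw [Finset.card_univ, Fintype.card_fin] at this
  omega

/-- the killing sets of cells -/
def Tc (i : Lab (W e) × ℤ) : Set Cell :=
  match i.1 with
  | Sum.inl _ => {c | c.1 = 0}
  | Sum.inr _ => {c | c.1 ≠ 0}

theorem Tc_meas (i : Lab (W e) × ℤ) : MeasurableSet (Tc i) := by
  obtain ⟨i | i, k⟩ := i
  · exact measurable_fst (measurableSet_singleton 0)
  · exact (measurable_fst (measurableSet_singleton 0)).compl

theorem cell_ge (r : ℝ) (n : ℕ) (s : Set Cell) (hs : {c : Cell | c.1 = n} ⊆ s) :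
    poissonMeasure r.toNNReal {n} ≤ cellLaw r s := by
  refine le_trans (le_of_eq ?_) (measure_mono hs)
  have e1 : {c : Cell | c.1 = n} = ({n} : Set ℕ) ×ˢ (univ : Set (ℕ → U1)) := by
    ext c
    simp
  unfold cellLaw
  rw [e1, Measure.prod_prod, measure_univ, mul_one]

theorem exists_delta (hlam : 0 < lam) : ∃ δ : ℝ≥0∞, 0 < δ ∧ δ ≤ 1 ∧
    ∀ i : Lab (W e) × ℤ, δ ≤ cellLaw (contactRate lam i.1) (Tc i) := by
  refine ⟨min (poissonMeasure lam.toNNReal {0}) (poissonMeasure (1 : ℝ).toNNReal {1}), ?_, ?_, ?_⟩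
  · refine lt_min ?_ ?_
    · rw [poissonMeasure_singleton]
      rw [ENNReal.ofReal_pos]
      positivity
    · rw [poissonMeasure_singleton]
      rw [ENNReal.ofReal_pos]
      simp
      positivity
  · exact (min_le_left _ _).trans prob_le_one
  · rintro ⟨i | i, k⟩
    · exact (min_le_left _ _).trans (cell_ge lam 0 _ fun c hc => hc)
    · refine (min_le_right _ _).trans (cell_ge 1 1 _ fun c hc => ?_)
      have : c.1 = 1 := hc
      show c.1 ≠ 0
      omega

/-- the killing event for the finite set `B` and the window `k` -/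
def Kill (B : Finset (W e)) (k : ℤ) : Set (Env (Lab (W e))) :=
  Set.pi (↑(B.biUnion fun v => Sk v k)) fun i => Tc i

theorem Kill_meas (B : Finset (W e)) (k : ℤ) : MeasurableSet (Kill B k) :=
  MeasurableSet.pi (Finset.countable_toSet _) fun i _ => Tc_meas i

theorem Kill_ge {δ : ℝ≥0∞} (hδ1 : δ ≤ 1)
    (hδ : ∀ i : Lab (W e) × ℤ, δ ≤ cellLaw (contactRate lam i.1) (Tc i)) (B : Finset (W e)) (k : ℤ)
    (K : ℕ) (hB : B.card ≤ K) : δ ^ ((e + 4) * K) ≤ mu (W e) lam (Kill B k) := by
  have h1 : mu (W e) lam (Kill B k) =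
      ∏ i ∈ B.biUnion fun v => Sk v k, cellLaw (contactRate lam i.1) (Tc i) :=
    Measure.infinitePi_pi _ fun i _ => Tc_meas i
  rw [h1]
  calc δ ^ ((e + 4) * K) ≤ δ ^ (B.biUnion fun v => Sk v k).card := by
        refine pow_le_pow_right_of_le_one' hδ1 ?_
        refine (Finset.card_biUnion_le_card_mul B _ (e + 4) fun v _ => Sk_card v k).trans ?_
        rw [mul_comm]
        exact Nat.mul_le_mul_left _ hB
    _ = ∏ _i ∈ B.biUnion fun v => Sk v k, δ := by rw [Finset.prod_const]
    _ ≤ _ := Finset.prod_le_prod' fun i _ => hδ i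

/-- in a killed window nothing arrives in `B` -/
theorem Kill_no {ω : Env (Lab (W e))} {B : Finset (W e)} {k : ℤ} (hω : ω ∈ Kill B k) {y : W e}
    (hy : y ∈ B) (x : W e) : ¬ Con (TW e) ω x k y (k + 1) := by
  intro hc
  have hcell : ∀ i ∈ Sk y k, ω i ∈ Tc i := fun i hi =>
    hω i (Finset.mem_coe.mpr (Finset.mem_biUnion.mpr ⟨y, hy, hi⟩))
  have hr : (ω (Sum.inr y, k)).1 ≠ 0 := hcell _ (Finset.mem_insert_self _ _)
  have hedge : ∀ z, (TW e).Adj z y → (ω (Sum.inl s(z, y), k)).1 = 0 := by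
    intro z hz
    rcases hz with ⟨a, rfl⟩ | ⟨a, ha⟩
    · have h := hcell (Sum.inl s(y, a :: y), k) (Finset.mem_insert_of_mem
        (Finset.mem_insert_of_mem (Finset.mem_image_of_mem _ (Finset.mem_univ a))))
      rw [Sym2.eq_swap]
      exact h
    · have h := hcell (Sum.inl s(y, y.tail), k)
        (Finset.mem_insert_of_mem (Finset.mem_insert_self _ _))
      rw [Sym2.eq_swap]
      rw [ha] at h ⊢
      exact h
  -- no recovery since the start
  have key : ∀ {y' t}, PE (TW e) ω x (k : ℝ) y' t → y' = y → t ≤ (k : ℝ) + 1 →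
      ∀ r, (k : ℝ) < r → r ≤ t → r ∉ marks ω (Sum.inr y) := by
    intro y' t h
    induction h with
    | start => intro _ _ r a b; exact absurd b (not_le.mpr a)
    | @stay y' t' u' h0 hle hrr ih =>
      intro hyy hu r a b
      subst hyy
      by_cases hc : r ≤ t'
      · exact ih rfl (hle.trans hu) r a hc
      · exact hrr r (not_le.mp hc) b
    | @cross y' z' t' h0 hadj hlt hmem ih =>
      intro hyy hu r a b
      subst hyy
      exfalso
      obtain ⟨m, n, hn, hm⟩ := hmem
      have hU := (((ω (Sum.inl s(y', z'), m)).2 n).2 :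
        ((ω (Sum.inl s(y', z'), m)).2 n : ℝ) ∈ Ioc (0 : ℝ) 1)
      have hm1 : k ≤ m := by
        have : (k : ℝ) < m + 1 := by linarith [hU.2]
        exact Int.lt_add_one_iff.1 (by exact_mod_cast this)
      have hm2 : m < k + 1 := by
        have : (m : ℝ) < ((k + 1 : ℤ) : ℝ) := by push_cast; linarith [hU.1]
        exact_mod_cast this
      have : m = k := by omega
      subst this
      have h0' := hedge y' hadj
      omega
  have hc' : PE (TW e) ω x (k : ℝ) y ((k + 1 : ℤ) : ℝ) := hc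
  have hlast := key hc' rfl (by push_cast; exact le_refl _)
    ((k : ℝ) + ((ω (Sum.inr y, k)).2 0 : ℝ))
    (by
      have := ((ω (Sum.inr y, k)).2 0).2.1
      linarith)
    (by
      have := ((ω (Sum.inr y, k)).2 0).2.2
      push_cast
      linarith)
  exact hlast ⟨k, 0, Nat.pos_of_ne_zero hr, rfl⟩

/-- the set of the infected ancestors is `B` -/
def AB (n : ℕ) (B : Finset (W e)) : Set (Env (Lab (W e))) :=
  {ω | ∀ v, Con (TW e) ω v (-(n : ℤ)) [] 0 ↔ v ∈ B}

/-- survival for `n` windows -/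
def En (e : ℕ) (n : ℕ) : Set (Env (Lab (W e))) := {ω | ∃ v, Con (TW e) ω v (-(n : ℤ)) [] 0}

theorem AB_meas (h3 : S_MEAS) (n : ℕ) (B : Finset (W e)) : MeasurableSet (AB n B) := by
  have : AB n B = ⋂ v, {ω : Env (Lab (W e)) | Con (TW e) ω v (-(n : ℤ)) [] 0 ↔ v ∈ B} := by
    ext ω
    simp [AB]
  rw [this]
  refine MeasurableSet.iInter fun v => ?_
  by_cases hv : v ∈ B
  · simp only [hv, iff_true]
    exact meas_con h3 _ _ _ _ _
  · simp only [hv, iff_false]
    exact (meas_con h3 _ _ _ _ _).compl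

theorem En_meas (h3 : S_MEAS) (n : ℕ) : MeasurableSet (En e n) := by
  have : En e n = ⋃ v, {ω : Env (Lab (W e)) | Con (TW e) ω v (-(n : ℤ)) [] 0} := by
    ext ω
    simp [En]
  rw [this]
  exact MeasurableSet.iUnion fun v => meas_con h3 _ _ _ _ _

theorem En_anti {m n : ℕ} (h : m ≤ n) : En e n ⊆ En e m := by
  rintro ω ⟨v, hv⟩
  obtain ⟨y, -, hy⟩ := hv.split (l := -(m : ℤ)) (by omega) (by omega)
  exact ⟨y, hy⟩

theorem AB_inter (h2 : S_BLOCK) (h3 : S_MEAS) (n : ℕ) (B : Finset (W e)) :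
    mu (W e) lam (AB n B ∩ Kill B (-(n : ℤ) - 1)) =
      mu (W e) lam (AB n B) * mu (W e) lam (Kill B (-(n : ℤ) - 1)) := by
  refine mu_inter h2 lam _ _ {i | -(n : ℤ) ≤ i.2} {i | i.2 < -(n : ℤ)} (AB_meas h3 n B)
    (Kill_meas B _) ?_ ?_ ?_
  · intro ω ω' h hω v
    rw [← hω v]
    exact (Con_congr fun i hi => h i hi.1).symm
  · intro ω ω' h hω i hi
    have hi2 : i.2 = -(n : ℤ) - 1 := by
      rw [Finset.mem_coe, Finset.mem_biUnion] at hi
      obtain ⟨v, -, hv⟩ := hi
      unfold Sk at hv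
      rw [Finset.mem_insert, Finset.mem_insert, Finset.mem_image] at hv
      rcases hv with rfl | rfl | ⟨a, -, rfl⟩ <;> rfl
    have := hω i hi
    rw [h i (by rw [mem_ofPred_eq, hi2]; omega)] at this
    exact this
  · rw [Set.disjoint_left]
    intro i h1 h2
    rw [mem_ofPred_eq] at h1 h2
    omega

theorem AB_disj (n : ℕ) {B B' : Finset (W e)} (h : B ≠ B') : Disjoint (AB n B) (AB n B') := by
  rw [Set.disjoint_left]
  intro ω h1 h2
  apply h
  ext v
  rw [← h1 v, h2 v]

/-- the mean number of the vertices in `A_n` -/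
theorem markov (h3 : S_MEAS) (C : ℝ≥0∞) (n K : ℕ) (hC : bb e lam n ≤ C) :
    mu (W e) lam {ω | (K : ℝ≥0∞) + 1 ≤
      ∑' v : W e, {ω | Con (TW e) ω v (-(n : ℤ)) [] 0}.indicator (fun _ => (1 : ℝ≥0∞)) ω} ≤
      C / (K + 1) := by
  have hm : ∀ v : W e, Measurable
      ({ω : Env (Lab (W e)) | Con (TW e) ω v (-(n : ℤ)) [] 0}.indicator (fun _ => (1 : ℝ≥0∞))) :=
    fun v => measurable_const.indicator (meas_con h3 _ _ _ _ _)
  refine (meas_ge_le_lintegral_div (Measurable.tsum hm).aemeasurable (by simp)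
    (by exact_mod_cast ENNReal.natCast_ne_top (K + 1))).trans ?_
  refine ENNReal.div_le_div_right ?_ _
  rw [lintegral_tsum fun v => (hm v).aemeasurable]
  refine le_trans (le_of_eq ?_) hC
  unfold bb
  refine tsum_congr fun v => ?_
  rw [lintegral_indicator_const (meas_con h3 _ _ _ _ _), one_mul]

theorem cover (n K : ℕ) : En e n ⊆ (⋃ B : Finset (W e), if B.Nonempty ∧ B.card ≤ K then AB n B
      else ∅) ∪ {ω | (K : ℝ≥0∞) + 1 ≤
      ∑' v : W e, {ω | Con (TW e) ω v (-(n : ℤ)) [] 0}.indicator (fun _ => (1 : ℝ≥0∞)) ω} := by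
  classical
  intro ω hω
  set A : Set (W e) := {v | Con (TW e) ω v (-(n : ℤ)) [] 0} with hA
  have hge : ∀ B : Finset (W e), (↑B : Set (W e)) ⊆ A → K + 1 ≤ B.card →
      (K : ℝ≥0∞) + 1 ≤
      ∑' v : W e, {ω | Con (TW e) ω v (-(n : ℤ)) [] 0}.indicator (fun _ => (1 : ℝ≥0∞)) ω := by
    intro B hB hcard
    refine le_trans ?_ (ENNReal.sum_le_tsum B)
    have : ∑ v ∈ B, {ω | Con (TW e) ω v (-(n : ℤ)) [] 0}.indicator (fun _ => (1 : ℝ≥0∞)) ω =
        ∑ _v ∈ B, (1 : ℝ≥0∞) := by
      refine Finset.sum_congr rfl fun v hv => ?_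
      exact Set.indicator_of_mem (s := {ω | Con (TW e) ω v (-(n : ℤ)) [] 0})
        (show Con (TW e) ω v (-(n : ℤ)) [] 0 from hB (Finset.mem_coe.mpr hv)) _
    rw [this, Finset.sum_const, nsmul_eq_mul, mul_one]
    exact_mod_cast hcard
  by_cases hfin : A.Finite
  · by_cases hcard : hfin.toFinset.card ≤ K
    · left
      refine mem_iUnion.mpr ⟨hfin.toFinset, ?_⟩
      have hne : hfin.toFinset.Nonempty := by
        obtain ⟨v, hv⟩ := hω
        exact ⟨v, hfin.mem_toFinset.mpr hv⟩
      rw [if_pos ⟨hne, hcard⟩]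
      intro v
      rw [hfin.mem_toFinset]
      exact Iff.rfl
    · right
      exact hge hfin.toFinset (by rw [hfin.coe_toFinset]) (by omega)
  · right
    obtain ⟨B, hB, hBc⟩ := Set.Infinite.exists_subset_card_eq hfin (K + 1)
    exact hge B hB hBc.ge

/-- the basic inequality -/
theorem main_ineq (h2 : S_BLOCK) (h3 : S_MEAS) {δ : ℝ≥0∞} (hδ0 : 0 < δ) (hδ1 : δ ≤ 1)
    (hδ : ∀ i : Lab (W e) × ℤ, δ ≤ cellLaw (contactRate lam i.1) (Tc i)) (C : ℝ≥0∞) (n K : ℕ)
    (hC : bb e lam n ≤ C) :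
    mu (W e) lam (En e n) ≤
      (δ ^ ((e + 4) * K))⁻¹ * mu (W e) lam (En e n \ En e (n + 1)) + C / (K + 1) := by
  classical
  set D : ℝ≥0∞ := δ ^ ((e + 4) * K) with hD
  have hD0 : D ≠ 0 := pow_ne_zero _ hδ0.ne'
  have hDt : D ≠ ∞ := ENNReal.pow_ne_top (ne_top_of_le_ne_top ENNReal.one_ne_top hδ1)
  let U : Finset (W e) → Set (Env (Lab (W e))) := fun B =>
    if B.Nonempty ∧ B.card ≤ K then AB n B else ∅
  have hUm : ∀ B, MeasurableSet (U B) := by
    intro B
    show MeasurableSet (if B.Nonempty ∧ B.card ≤ K then AB n B else ∅)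
    split_ifs
    · exact AB_meas h3 n B
    · exact MeasurableSet.empty
  have hUd : Pairwise (Function.onFun Disjoint fun B => U B ∩ Kill B (-(n : ℤ) - 1)) := by
    intro B B' hBB
    refine Disjoint.mono inter_subset_left inter_subset_left ?_
    show Disjoint (if B.Nonempty ∧ B.card ≤ K then AB n B else ∅)
      (if B'.Nonempty ∧ B'.card ≤ K then AB n B' else ∅)
    split_ifs
    · exact AB_disj n hBB
    · exact disjoint_bot_right
    · exact disjoint_bot_left
    · exact disjoint_bot_left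
  have h1 : mu (W e) lam (⋃ B, U B) ≤ D⁻¹ * mu (W e) lam (En e n \ En e (n + 1)) := by
    have h4 : D * mu (W e) lam (⋃ B, U B) ≤ mu (W e) lam (En e n \ En e (n + 1)) := by
      calc D * mu (W e) lam (⋃ B, U B) ≤ D * ∑' B, mu (W e) lam (U B) := by
            gcongr
            exact measure_iUnion_le _
        _ = ∑' B, D * mu (W e) lam (U B) := ENNReal.tsum_mul_left.symm
        _ ≤ ∑' B, mu (W e) lam (U B ∩ Kill B (-(n : ℤ) - 1)) := by
            refine ENNReal.tsum_le_tsum fun B => ?_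
            by_cases hB : B.Nonempty ∧ B.card ≤ K
            · have e1 : U B = AB n B := if_pos hB
              rw [e1, AB_inter h2 h3, mul_comm]
              gcongr
              exact Kill_ge hδ1 hδ B _ K hB.2
            · have e1 : U B = ∅ := if_neg hB
              rw [e1]
              simp
        _ = mu (W e) lam (⋃ B, U B ∩ Kill B (-(n : ℤ) - 1)) :=
            (measure_iUnion hUd fun B => (hUm B).inter (Kill_meas B _)).symm
        _ ≤ mu (W e) lam (En e n \ En e (n + 1)) := by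
            refine measure_mono (iUnion_subset fun B => ?_)
            rintro ω ⟨hω1, hω2⟩
            by_cases hB : B.Nonempty ∧ B.card ≤ K
            · have e1 : U B = AB n B := if_pos hB
              rw [e1] at hω1
              obtain ⟨v, hv⟩ := hB.1
              refine ⟨⟨v, (hω1 v).mpr hv⟩, ?_⟩
              rintro ⟨x, hx⟩
              have e2 : (-((n + 1 : ℕ) : ℤ)) = -(n : ℤ) - 1 := by push_cast; ring
              rw [e2] at hx
              obtain ⟨y, hy1, hy2⟩ := hx.split (l := -(n : ℤ)) (by omega) (by omega)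
              have hyB := (hω1 y).mp hy2
              refine Kill_no hω2 hyB x ?_
              have e3 : -(n : ℤ) - 1 + 1 = -(n : ℤ) := by ring
              rw [e3]
              exact hy1
            · have e1 : U B = ∅ := if_neg hB
              rw [e1] at hω1
              exact absurd hω1 (notMem_empty _)
    rw [← ENNReal.div_eq_inv_mul, ENNReal.le_div_iff_mul_le (Or.inl hD0) (Or.inl hDt), mul_comm]
    exact h4
  calc mu (W e) lam (En e n) ≤ mu (W e) lam ((⋃ B, U B) ∪ {ω | (K : ℝ≥0∞) + 1 ≤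
      ∑' v : W e, {ω | Con (TW e) ω v (-(n : ℤ)) [] 0}.indicator (fun _ => (1 : ℝ≥0∞)) ω}) :=
        measure_mono (cover n K)
    _ ≤ _ := (measure_union_le _ _).trans (add_le_add h1 (markov h3 C n K hC))

/-- extinction of the root -/
theorem root (h2 : S_BLOCK) (h3 : S_MEAS) (C : ℝ≥0∞) (hlam : 0 < lam) (hC : C ≠ ∞)
    (hb : ∀ n, bb e lam n ≤ C) : mu (W e) lam {ω | ∀ n : ℕ, ω ∈ En e n} = 0 := by
  obtain ⟨δ, hδ0, hδ1, hδ⟩ := exists_delta (e := e) hlam
  -- the differences are summable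
  have hdis : Pairwise (Function.onFun Disjoint fun n : ℕ => En e n \ En e (n + 1)) := by
    have key : ∀ m n : ℕ, m < n → Disjoint (En e m \ En e (m + 1)) (En e n \ En e (n + 1)) := by
      intro m n hmn
      rw [Set.disjoint_left]
      rintro ω ⟨-, ha⟩ ⟨hb', -⟩
      exact ha (En_anti (show m + 1 ≤ n by omega) hb')
    intro m n hmn
    rcases lt_or_gt_of_ne hmn with h | h
    · exact key m n h
    · exact (key n m h).symm
  have hsum : ∑' n : ℕ, mu (W e) lam (En e n \ En e (n + 1)) ≤ 1 := by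
    rw [← measure_iUnion hdis fun n => (En_meas h3 n).diff (En_meas h3 (n + 1))]
    exact prob_le_one
  have hlim : Tendsto (fun n : ℕ => mu (W e) lam (En e n \ En e (n + 1))) atTop (𝓝 0) :=
    ENNReal.tendsto_atTop_zero_of_tsum_ne_top (ne_top_of_le_ne_top ENNReal.one_ne_top hsum)
  have h1 : ∀ K : ℕ, mu (W e) lam {ω | ∀ n : ℕ, ω ∈ En e n} ≤ C / (K + 1) := by
    intro K
    have hD0 : δ ^ ((e + 4) * K) ≠ 0 := pow_ne_zero _ hδ0.ne'
    have hlim' : Tendsto (fun n : ℕ => (δ ^ ((e + 4) * K))⁻¹ *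
        mu (W e) lam (En e n \ En e (n + 1)) + C / (K + 1)) atTop
        (𝓝 ((δ ^ ((e + 4) * K))⁻¹ * 0 + C / (K + 1))) :=
      (ENNReal.Tendsto.const_mul hlim (Or.inr (ENNReal.inv_ne_top.mpr hD0))).add
        tendsto_const_nhds
    rw [mul_zero, zero_add] at hlim'
    refine ge_of_tendsto' hlim' fun n => ?_
    have hsub : {ω : Env (Lab (W e)) | ∀ n : ℕ, ω ∈ En e n} ⊆ En e n := fun ω hω => hω n
    exact (measure_mono hsub).trans (main_ineq h2 h3 hδ0 hδ1 hδ C n K (hb n))
  have hlim2 : Tendsto (fun K : ℕ => C / ((K : ℝ≥0∞) + 1)) atTop (𝓝 0) := by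
    have h5 : Tendsto (fun K : ℕ => ((K + 1 : ℕ) : ℝ≥0∞)⁻¹) atTop (𝓝 0) :=
      ENNReal.tendsto_inv_nat_nhds_zero.comp (tendsto_add_atTop_nat 1)
    have h6 : Tendsto (fun K : ℕ => C * ((K + 1 : ℕ) : ℝ≥0∞)⁻¹) atTop (𝓝 (C * 0)) :=
      ENNReal.Tendsto.const_mul h5 (Or.inr hC)
    rw [mul_zero] at h6
    refine h6.congr fun K => ?_
    rw [div_eq_mul_inv]
    push_cast
    rfl
  exact le_antisymm (ge_of_tendsto' hlim2 h1) bot_le

/-- the vertex `w` hands the infection over to the root -/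
theorem down (h2 : S_BLOCK) (h3 : S_MEAS) (h4 : S_HAND) (hlam : 0 < lam) (w : W e) :
    mu (W e) lam {ω | Con (TW e) ω w (-(w.length : ℤ)) [] 0} ≠ 0 := by
  induction w with
  | nil =>
    have : {ω : Env (Lab (W e)) | Con (TW e) ω [] (-(([] : W e).length : ℤ)) [] 0} = univ := by
      ext ω
      simp only [mem_univ, iff_true]
      show PE (TW e) ω [] _ [] _
      simp only [List.length_nil, Nat.cast_zero, neg_zero]
      exact PE.refl _ _
    rw [this, measure_univ]
    exact one_ne_zero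
  | cons a u ih =>
    have hadj : (TW e).Adj (a :: u) u := Or.inl ⟨a, rfl⟩
    have hh := (h4 (W e) (TW e) lam (a :: u) u (-(u.length : ℤ) - 1) hlam).1 hadj
    have hpos : 0 < ENNReal.ofReal (hc lam) := by
      rw [ENNReal.ofReal_pos]
      unfold hc
      have : Real.exp (-lam) < 1 := by
        rw [Real.exp_lt_one_iff]
        linarith
      have h6 : 0 < 1 - Real.exp (-lam) := by linarith
      positivity
    have h5 := mu_inter h2 lam
      {ω | Con (Rs (TW e) {a :: u, u}) ω (a :: u) (-(u.length : ℤ) - 1) u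
        (-(u.length : ℤ) - 1 + 1)}
      {ω | Con (TW e) ω u (-(u.length : ℤ)) [] 0} {i | i.2 < -(u.length : ℤ)}
      {i | -(u.length : ℤ) ≤ i.2} (meas_con h3 _ _ _ _ _) (meas_con h3 _ _ _ _ _)
      (by
        intro ω ω' h hω
        refine (Con_congr fun i hi => h i ?_).mp hω
        have := hi.2.1
        rw [mem_ofPred_eq]
        omega)
      (by
        intro ω ω' h hω
        exact (Con_congr fun i hi => h i hi.1).mp hω)
      (by
        rw [Set.disjoint_left]
        intro i h1 h2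
        rw [mem_ofPred_eq] at h1 h2
        omega)
    have h6 : mu (W e) lam ({ω | Con (Rs (TW e) {a :: u, u}) ω (a :: u) (-(u.length : ℤ) - 1) u
        (-(u.length : ℤ) - 1 + 1)} ∩ {ω | Con (TW e) ω u (-(u.length : ℤ)) [] 0}) ≠ 0 := by
      rw [h5]
      exact mul_ne_zero (hpos.trans_le hh).ne' ih
    intro h0
    apply h6
    refine measure_mono_null ?_ h0
    rintro ω ⟨hω1, hω2⟩
    have e1 : (-((a :: u).length : ℤ)) = -(u.length : ℤ) - 1 := by
      rw [List.length_cons]
      push_cast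
      ring
    have e2 : -(u.length : ℤ) - 1 + 1 = -(u.length : ℤ) := by ring
    rw [mem_ofPred_eq, e1]
    rw [mem_ofPred_eq, e2] at hω1
    exact (hω1.mono (Rs_le _ _)).trans hω2

end EXT

open EXT in
theorem s_ext (h1 : S_RIX) (h2 : S_BLOCK) (h3 : S_MEAS) (h4 : S_HAND) : S_EXT := by
  intro e lam C hlam hC hb w
  set L : ℤ := (w.length : ℤ) with hL
  set Q : Set (Env (Lab (W e))) := {ω | ∀ n : ℕ, ∃ v, Con (TW e) ω v (-(n : ℤ)) w 0} with hQ
  have hQm : MeasurableSet Q := by
    have : Q = ⋂ n : ℕ, ⋃ v, {ω : Env (Lab (W e)) | Con (TW e) ω v (-(n : ℤ)) w 0} := by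
      ext ω
      simp [hQ]
    rw [this]
    exact MeasurableSet.iInter fun n => MeasurableSet.iUnion fun v => meas_con h3 _ _ _ _ _
  have hmp : MeasurePreserving (pull (id : W e → W e) (-L)) (mu (W e) lam) (mu (W e) lam) :=
    h1.2 (W e) (W e) lam id (-L) Function.injective_id
  rw [← hmp.measure_preimage hQm.nullMeasurableSet]
  have hind := mu_inter h2 lam ((pull (id : W e → W e) (-L)) ⁻¹' Q)
    {ω | Con (TW e) ω w (-L) [] 0} {i | i.2 < -L} {i | -L ≤ i.2}
    (hmp.measurable hQm) (meas_con h3 _ _ _ _ _)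
    (by
      intro ω ω' h hω n
      obtain ⟨v, hv⟩ := hω n
      refine ⟨v, ?_⟩
      rw [Con_shift] at hv ⊢
      refine (Con_congr fun i hi => h i ?_).mp hv
      have := hi.2.1
      rw [mem_ofPred_eq]
      omega)
    (by
      intro ω ω' h hω
      exact (Con_congr fun i hi => h i hi.1).mp hω)
    (by
      rw [Set.disjoint_left]
      intro i h1 h2
      rw [mem_ofPred_eq] at h1 h2
      omega)
  have hzero : mu (W e) lam (((pull (id : W e → W e) (-L)) ⁻¹' Q) ∩
      {ω | Con (TW e) ω w (-L) [] 0}) = 0 := by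
    refine measure_mono_null ?_ (root h2 h3 C hlam hC hb)
    rintro ω ⟨hω1, hω2⟩ n
    by_cases hn : (n : ℤ) ≤ L
    · obtain ⟨y, -, hy⟩ := Con.split (l := -(n : ℤ)) hω2 (by omega) (by omega)
      exact ⟨y, hy⟩
    · obtain ⟨m, hm⟩ : ∃ m : ℕ, (n : ℤ) = m + L := ⟨n - w.length, by omega⟩
      obtain ⟨v, hv⟩ := hω1 m
      rw [Con_shift] at hv
      have e1 : -(m : ℤ) + -L = -(n : ℤ) := by omega
      have e2 : (0 : ℤ) + -L = -L := by ring
      rw [e1, e2] at hv
      exact ⟨v, hv.trans hω2⟩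
  rw [hind] at hzero
  rcases mul_eq_zero.mp hzero with h | h
  · exact h
  · exact absurd h (down h2 h3 h4 hlam w)

end Pool.Agent.H106.SF
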